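import Pool.Agent.Helper78.K4.LA1
import Pool.Agent.Helper14.K4.LA0

/-!
# Module LA3ii of theorem K4R: three fields, the case `I + w(E) = V`
-/

set_option autoImplicit false

open Set Module
open scoped commutatorElement

namespace Pool.Agent.Helper1.K4

open Pool.Agent.Helper77.K4

section

variable {V E G : Type*} [NormedAddCommGroup V] [NormedSpace ℝ V] [FiniteDimensional ℝ V]
    [NormedAddCommGroup E] [NormedSpace ℝ E] [FiniteDimensional ℝ E] [Group G]

theorem eq_zero_of_eigen {X : V →ₗ[ℝ] V} (h : IsNilpotent X) {v : V} {b : ℝ} (hv : v ≠ 0)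
    (hb : X v = b • v) : b = 0 := by
  obtain ⟨n, hn⟩ := h
  have h1 : ∀ m : ℕ, (X ^ m) v = b ^ m • v := by
    intro m
    induction m with
    | zero => simp
    | succ m ih =>
      rw [pow_succ', Module.End.mul_apply, ih, map_smul, hb, smul_smul, pow_succ]
  have h2 := h1 n
  rw [hn, LinearMap.zero_apply] at h2
  rcases smul_eq_zero.1 h2.symm with h3 | h3
  · have hn0 : n ≠ 0 := by
      rintro rfl
      rw [pow_zero] at h3
      exact one_ne_zero h3
    exact (pow_eq_zero_iff hn0).1 h3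
  · exact absurd h3 hv

variable (D : LieData V E G)

/-- `w` is equivariant modulo `I`. -/
theorem w_ad_mod (g : G) (ξ : E) : D.w (D.ad g ξ) - (D.a g).linear (D.w ξ) ∈ D.I := by
  rw [D.w_ad, sub_sub_cancel_left]
  exact D.I.neg_mem (D.X_mem_I _ _)

/-- The kernel of `w` modulo `I`. -/
def kk : Submodule ℝ E := LinearMap.ker (D.I.mkQ ∘ₗ D.w)

theorem mem_kk {ξ : E} : ξ ∈ kk D ↔ D.w ξ ∈ D.I := by
  rw [kk, LinearMap.mem_ker, LinearMap.comp_apply, Submodule.mkQ_apply,
    Submodule.Quotient.mk_eq_zero]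

theorem ad_kk (g : G) {ξ : E} (h : ξ ∈ kk D) : D.ad g ξ ∈ kk D := by
  rw [mem_kk] at h ⊢
  have h1 := D.I.add_mem (w_ad_mod D g ξ) (D.linv_I (H := ⊤) g (Subgroup.mem_top _) _ h)
  rwa [sub_add_cancel] at h1

variable {D}

theorem exists_w (hH : D.I ⊔ LinearMap.range D.w = ⊤) (v : V) : ∃ ξ : E, v - D.w ξ ∈ D.I := by
  have h1 : v ∈ D.I ⊔ LinearMap.range D.w := by rw [hH]; exact Submodule.mem_top
  obtain ⟨y, hy, _, ⟨ξ, rfl⟩, rfl⟩ := Submodule.mem_sup.1 h1
  exact ⟨ξ, by rwa [add_sub_cancel_right]⟩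

theorem surj_w (hH : D.I ⊔ LinearMap.range D.w = ⊤) :
    LinearMap.range (D.I.mkQ ∘ₗ D.w) = ⊤ := by
  rw [LinearMap.range_eq_top]
  intro q
  obtain ⟨v, rfl⟩ := D.I.mkQ_surjective q
  obtain ⟨ξ, hξ⟩ := exists_w hH v
  refine ⟨ξ, ?_⟩
  rw [LinearMap.comp_apply, eq_comm, ← sub_eq_zero, ← map_sub, Submodule.mkQ_apply,
    Submodule.Quotient.mk_eq_zero]
  exact hξ

theorem finrank_kk (hV : finrank ℝ V = 4) (hE : finrank ℝ E = 3)
    (hH : D.I ⊔ LinearMap.range D.w = ⊤) : finrank ℝ (kk D) + 1 = finrank ℝ D.I := by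
  have h1 := LinearMap.finrank_range_add_finrank_ker (D.I.mkQ ∘ₗ D.w)
  rw [surj_w hH, finrank_top, hE] at h1
  have h2 := Submodule.finrank_quotient_add_finrank D.I
  rw [hV] at h2
  change finrank ℝ (LinearMap.ker (D.I.mkQ ∘ₗ D.w)) + 1 = _
  omega

/-- `dim I = 1` -/
theorem case_one (hV : finrank ℝ V = 4) (hE : finrank ℝ E = 3)
    (hH : D.I ⊔ LinearMap.range D.w = ⊤) (hI : finrank ℝ D.I = 1) : D.Good := by
  refine Or.inr ⟨⊤, inferInstance, Or.inl ⟨D.I, D.linv_I, D.X_mem_I, ?_⟩⟩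
  have h1 := finrank_kk hV hE hH
  have h2 : LinearMap.ker (D.I.mkQ ∘ₗ D.w) = ⊥ := by
    apply Submodule.finrank_eq_zero.1
    change finrank ℝ (kk D) = 0
    omega
  exact ⟨LinearMap.ker_eq_bot.1 h2, LinearMap.range_eq_top.1 (surj_w hH)⟩

/-- `dim I = 3` -/
theorem case_three (hV : finrank ℝ V = 4) (hE : finrank ℝ E = 3)
    (hH : D.I ⊔ LinearMap.range D.w = ⊤) (hI : finrank ℝ D.I = 3) : D.Good := by
  have hkk := finrank_kk hV hE hH
  rw [hI] at hkk
  -- a field with constant part outside `I`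
  obtain ⟨ξ₁, hξ₁⟩ : ∃ ξ, ξ ∉ kk D := by
    by_contra hcon
    push Not at hcon
    have h1 : kk D = ⊤ := eq_top_iff.2 fun ξ _ => hcon ξ
    rw [h1, finrank_top, hE] at hkk
    omega
  have hEk : ∀ ξ : E, ∃ c : ℝ, ξ - c • ξ₁ ∈ kk D := by
    intro ξ
    have h1 : kk D ⊔ Submodule.span ℝ {ξ₁} = ⊤ := by
      apply Submodule.eq_top_of_finrank_eq
      have h2 : kk D < kk D ⊔ Submodule.span ℝ {ξ₁} := by
        refine lt_of_le_of_ne le_sup_left fun h => hξ₁ ?_
        rw [h]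
        exact Submodule.mem_sup_right (Submodule.mem_span_singleton_self _)
      have h3 := Submodule.finrank_lt_finrank_of_lt h2
      have h4 := Submodule.finrank_le (kk D ⊔ Submodule.span ℝ {ξ₁})
      omega
    have h2 : ξ ∈ kk D ⊔ Submodule.span ℝ {ξ₁} := by rw [h1]; exact Submodule.mem_top
    obtain ⟨y, hy, z, hz, rfl⟩ := Submodule.mem_sup.1 h2
    obtain ⟨c, rfl⟩ := Submodule.mem_span_singleton.1 hz
    exact ⟨c, by rwa [add_sub_cancel_right]⟩
  set e := D.w ξ₁ with he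
  have heI : e ∉ D.I := fun h => hξ₁ ((mem_kk D).2 h)
  have hVe : ∀ v : V, ∃ c : ℝ, v - c • e ∈ D.I := by
    intro v
    obtain ⟨ξ, hξ⟩ := exists_w hH v
    obtain ⟨c, hc⟩ := hEk ξ
    refine ⟨c, ?_⟩
    rw [mem_kk, map_sub, map_smul] at hc
    have h1 := D.I.add_mem hξ hc
    rwa [sub_add_sub_cancel] at h1
  set J := D.J D.I with hJ
  have hIne : D.I ≠ ⊥ := by
    intro h
    rw [h, finrank_bot] at hI
    omega
  have hJI : J < D.I := D.J_lt (fun ξ v _ => D.X_mem_I ξ v) hIne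
  -- the fields of `kk` map `V` to `J`
  have hk1 : ∀ ξ ∈ kk D, D.X ξ e ∈ J := by
    intro ξ hξ
    rw [he, D.commw]
    exact D.X_mem_J _ ((mem_kk D).1 hξ)
  have hk2 : ∀ ξ ∈ kk D, ∀ v, D.X ξ v ∈ J := by
    intro ξ hξ v
    obtain ⟨c, hc⟩ := hVe v
    have h1 := J.add_mem (D.X_mem_J ξ hc) (J.smul_mem c (hk1 ξ hξ))
    have h2 : D.X ξ (v - c • e) + c • D.X ξ e = D.X ξ v := by
      rw [map_sub, map_smul, sub_add_cancel]
    rwa [h2] at h1
  set i := D.X ξ₁ e with hi
  have hI2 : D.I ≤ J ⊔ Submodule.span ℝ {i} := by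
    refine D.I_le fun ξ v => ?_
    obtain ⟨c, hc⟩ := hEk ξ
    obtain ⟨d, hd⟩ := hVe v
    have h1 : D.X ξ v = (D.X (ξ - c • ξ₁) v + c • D.X ξ₁ (v - d • e)) + (c * d) • i := by
      rw [map_sub, map_sub, map_smul, map_smul, LinearMap.sub_apply, LinearMap.smul_apply,
        smul_sub, smul_smul]
      abel
    rw [h1]
    exact Submodule.add_mem_sup (J.add_mem (hk2 _ hc v) (J.smul_mem c (D.X_mem_J ξ₁ hd)))
      (Submodule.smul_mem _ _ (Submodule.mem_span_singleton_self _))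
  have hJ2 : finrank ℝ J = 2 := by
    have h1 := Submodule.finrank_lt_finrank_of_lt hJI
    have h2 := Submodule.finrank_mono hI2
    have h3 := Submodule.finrank_add_le_finrank_add_finrank J (Submodule.span ℝ {i})
    have h4 := finrank_span_le_card (R := ℝ) ({i} : Set V)
    rw [Set.toFinset_singleton, Finset.card_singleton] at h4
    omega
  have hJne : J ≠ ⊥ := by
    intro h
    rw [h, finrank_bot] at hJ2
    omega
  have hJinv : LInv D.a ⊤ J := D.linv_J D.linv_I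
  have e2 : VSec D.a J D.I := VSec.of_finrank hJinv D.linv_I hJI.le (by omega)
  have e3 : VSec D.a D.I ⊤ := VSec.of_finrank D.linv_I LInv.top le_top (by
    rw [finrank_top]; omega)
  by_cases e1 : VSec D.a ⊥ J
  · exact Or.inl ((e1.trans D.linv_I e2).trans LInv.top e3)
  -- `X ξ` vanishes on `J`
  have hJJ : D.J J = ⊥ := by
    by_contra hne
    refine e1 (Helper14.K4.alpha LInv.bot (D.linv_J hJinv) hJinv bot_le
      (D.J_le fun ξ v hv => D.X_mem_J ξ (hJI.le hv)) ?_ hne ?_)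
    · rw [hJ2, finrank_bot]
    · exact (D.J_lt (fun ξ v hv => D.X_mem_J ξ (hJI.le hv)) hJne).ne
  have hXJ : ∀ ξ, ∀ v ∈ J, D.X ξ v = 0 := by
    intro ξ v hv
    have h1 := D.X_mem_J ξ hv
    rwa [hJJ, Submodule.mem_bot] at h1
  have hki : ∀ ξ ∈ kk D, D.X ξ i = 0 := by
    intro ξ hξ
    rw [hi, D.comm]
    exact hXJ _ _ (hk1 ξ hξ)
  have hJ3 : J ≤ Submodule.span ℝ {D.X ξ₁ i} := by
    refine D.J_le fun ξ v hv => ?_
    obtain ⟨y, hy, z, hz, rfl⟩ := Submodule.mem_sup.1 (hI2 hv)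
    obtain ⟨c, rfl⟩ := Submodule.mem_span_singleton.1 hz
    obtain ⟨d, hd⟩ := hEk ξ
    have h1 : D.X ξ (y + c • i) = (c * d) • D.X ξ₁ i := by
      have h2 := hki _ hd
      rw [map_sub, map_smul, LinearMap.sub_apply, LinearMap.smul_apply, sub_eq_zero] at h2
      rw [map_add, map_smul, hXJ ξ y hy, zero_add, h2, smul_smul]
    rw [h1]
    exact Submodule.smul_mem _ _ (Submodule.mem_span_singleton_self _)
  have h1 := Submodule.finrank_mono hJ3
  have h4 := finrank_span_le_card (R := ℝ) ({D.X ξ₁ i} : Set V)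
  rw [Set.toFinset_singleton, Finset.card_singleton] at h4
  omega

/-- `dim I = 2` -/
theorem case_two (hV : finrank ℝ V = 4) (hE : finrank ℝ E = 3)
    (hH : D.I ⊔ LinearMap.range D.w = ⊤) (hI : finrank ℝ D.I = 2) : D.Good := by
  have hkk := finrank_kk hV hE hH
  rw [hI] at hkk
  -- the field with constant part in `I`
  obtain ⟨ζ, hζ, hspan⟩ : ∃ ζ : E, ζ ≠ 0 ∧ kk D = Submodule.span ℝ {ζ} := by
    have h1 : finrank ℝ (kk D) = 1 := by omega
    obtain ⟨⟨ζ, hζ⟩, hne, hall⟩ := finrank_eq_one_iff'.1 h1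
    refine ⟨ζ, fun h => hne (Subtype.ext h), le_antisymm ?_ ?_⟩
    · intro ξ hξ
      obtain ⟨c, hc⟩ := hall ⟨ξ, hξ⟩
      exact Submodule.mem_span_singleton.2 ⟨c, congrArg Subtype.val hc⟩
    · rw [Submodule.span_singleton_le_iff_mem]
      exact hζ
  have hζk : ζ ∈ kk D := by
    rw [hspan]
    exact Submodule.mem_span_singleton_self _
  have hζI : D.w ζ ∈ D.I := (mem_kk D).1 hζk
  have hl : ∀ g, D.ad g ζ ∈ Submodule.span ℝ {ζ} := by
    intro g
    rw [← hspan]
    exact ad_kk D g hζk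
  rcases D.r1 hV hζ hl with h | h | ⟨h, h'⟩
  · exact Or.inl h
  rotate_left
  · -- rank one and `X w ≠ 0`
    exfalso
    obtain ⟨⟨β, hβ⟩, hβne, hβall⟩ := finrank_eq_one_iff'.1 h
    have hβ0 : β ≠ 0 := fun h => hβne (Subtype.ext h)
    have hr : ∀ v, ∃ c : ℝ, D.X ζ v = c • β := by
      intro v
      obtain ⟨c, hc⟩ := hβall ⟨D.X ζ v, v, rfl⟩
      exact ⟨c, (congrArg Subtype.val hc).symm⟩
    have hXβ : ∀ ξ, D.X ξ β = 0 := by
      intro ξ
      obtain ⟨u, rfl⟩ := hβ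
      obtain ⟨c, hc⟩ := hr (D.X ξ u)
      rw [D.comm] at hc
      have h1 := eq_zero_of_eigen (D.nil ξ) hβ0 hc
      rw [h1, zero_smul] at hc
      exact hc
    have h1 : D.I ≤ LinearMap.ker (D.X ζ) := by
      refine D.I_le fun ξ v => ?_
      obtain ⟨c, hc⟩ := hr v
      rw [LinearMap.mem_ker, D.comm, hc, map_smul, hXβ, smul_zero]
    exact h' (h1 hζI)
  -- `X ζ = 0`
  set v₀ := D.w ζ with hv₀
  have hv₀0 : v₀ ≠ 0 := fun h0 => hζ (D.eq_zero_of h h0)
  have hXv₀ : ∀ ξ, D.X ξ v₀ = 0 := by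
    intro ξ
    rw [hv₀, D.commw, h, LinearMap.zero_apply]
  have hlin : LInv D.a ⊤ (Submodule.span ℝ {v₀}) := by
    refine LInv.span fun g _ v hv => ?_
    rw [Set.mem_singleton_iff] at hv
    subst hv
    obtain ⟨c, hc⟩ := Submodule.mem_span_singleton.1 (hl g)
    have h1 : (D.a g).linear v₀ = c • v₀ := by
      have h2 := D.w_ad g ζ
      rw [← hc, map_smul, map_smul, h, smul_zero, LinearMap.zero_apply, sub_zero] at h2
      exact h2.symm
    rw [h1]
    exact Submodule.smul_mem _ _ (Submodule.mem_span_singleton_self _)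
  have hd0 : finrank ℝ (Submodule.span ℝ {v₀}) = 1 := finrank_span_singleton hv₀0
  have hle0 : Submodule.span ℝ {v₀} ≤ D.I := by
    rw [Submodule.span_singleton_le_iff_mem]
    exact hζI
  have e1 : VSec D.a ⊥ (Submodule.span ℝ {v₀}) :=
    VSec.of_finrank LInv.bot hlin bot_le (by rw [hd0, finrank_bot])
  have e2 : VSec D.a (Submodule.span ℝ {v₀}) D.I :=
    VSec.of_finrank hlin D.linv_I hle0 (by omega)
  by_cases e3 : VSec D.a D.I ⊤
  · exact Or.inl ((e1.trans D.linv_I e2).trans LInv.top e3)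
  exfalso
  have hdim : finrank ℝ (⊤ : Submodule ℝ V) = finrank ℝ D.I + 2 := by
    rw [finrank_top]
    omega
  -- the second vector of `I`
  obtain ⟨i, hiI, hiv⟩ : ∃ i ∈ D.I, i ∉ Submodule.span ℝ {v₀} := by
    by_contra hcon
    push Not at hcon
    have h1 := Submodule.finrank_mono (fun x hx => hcon x hx : D.I ≤ Submodule.span ℝ {v₀})
    omega
  have hIsp : ∀ v ∈ D.I, ∃ a b : ℝ, v = a • v₀ + b • i := by
    have h1 : Submodule.span ℝ {v₀} < Submodule.span ℝ {v₀} ⊔ Submodule.span ℝ {i} := by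
      refine lt_of_le_of_ne le_sup_left fun h => hiv ?_
      rw [h]
      exact Submodule.mem_sup_right (Submodule.mem_span_singleton_self _)
    have h2 := Submodule.finrank_lt_finrank_of_lt h1
    have h3 : Submodule.span ℝ {v₀} ⊔ Submodule.span ℝ {i} ≤ D.I :=
      sup_le hle0 ((Submodule.span_singleton_le_iff_mem _ _).2 hiI)
    have h4 : Submodule.span ℝ {v₀} ⊔ Submodule.span ℝ {i} = D.I :=
      Submodule.eq_of_le_of_finrank_le h3 (by omega)
    intro v hv
    rw [← h4] at hv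
    obtain ⟨y, hy, z, hz, rfl⟩ := Submodule.mem_sup.1 hv
    obtain ⟨a, rfl⟩ := Submodule.mem_span_singleton.1 hy
    obtain ⟨b, rfl⟩ := Submodule.mem_span_singleton.1 hz
    exact ⟨a, b, rfl⟩
  -- `X ξ i` is a multiple of `v₀`
  have hXi : ∀ ξ, D.X ξ i ∈ Submodule.span ℝ {v₀} := by
    intro ξ
    obtain ⟨a, b, hab⟩ := hIsp _ (D.X_mem_I ξ i)
    by_cases hb : b = 0
    · rw [hab, hb, zero_smul, add_zero]
      exact Submodule.smul_mem _ _ (Submodule.mem_span_singleton_self _)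
    · exfalso
      have h1 : D.X ξ (a • v₀ + b • i) = b • (a • v₀ + b • i) := by
        rw [map_add, map_smul, hXv₀, smul_zero, zero_add, map_smul, hab]
      refine hb (eq_zero_of_eigen (D.nil ξ) ?_ h1)
      intro h2
      apply hiv
      have h3 : i = -(b⁻¹ * a) • v₀ := by
        have h4 := congrArg (fun z => b⁻¹ • z) h2
        simp only [smul_add, smul_smul, smul_zero] at h4
        rw [inv_mul_cancel₀ hb, one_smul] at h4
        rw [neg_smul]
        exact eq_neg_of_add_eq_zero_right h4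
      rw [h3]
      exact Submodule.smul_mem _ _ (Submodule.mem_span_singleton_self _)
  -- the fields vanishing on `I`
  set KK : Submodule ℝ E := ⨅ v : D.I, LinearMap.ker ((LinearMap.applyₗ (v : V)) ∘ₗ D.X) with hKK
  have memKK : ∀ ξ, ξ ∈ KK ↔ ∀ v ∈ D.I, D.X ξ v = 0 := by
    intro ξ
    rw [hKK, Submodule.mem_iInf]
    constructor
    · intro h v hv
      exact h ⟨v, hv⟩
    · rintro h ⟨v, hv⟩
      exact h v hv
  have hKKd : 2 ≤ finrank ℝ KK := by
    set φ : E →ₗ[ℝ] V := (LinearMap.applyₗ i) ∘ₗ D.X with hφ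
    have h1 := LinearMap.finrank_range_add_finrank_ker φ
    have h2 : LinearMap.range φ ≤ Submodule.span ℝ {v₀} := by
      rintro _ ⟨ξ, rfl⟩
      exact hXi ξ
    have h3 := Submodule.finrank_mono h2
    have h4 : LinearMap.ker φ ≤ KK := by
      intro ξ hξ
      rw [memKK]
      intro v hv
      obtain ⟨a, b, rfl⟩ := hIsp v hv
      have h5 : D.X ξ i = 0 := hξ
      rw [map_add, map_smul, hXv₀, map_smul, h5, smul_zero, smul_zero, add_zero]
    have h5 := Submodule.finrank_mono h4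
    omega
  have hKKad : ∀ g, ∀ ξ ∈ KK, D.ad g ξ ∈ KK := by
    intro g ξ hξ
    rw [memKK] at hξ ⊢
    intro v hv
    rw [D.X_ad', hξ _ (D.linv_I (H := ⊤) _ (Subgroup.mem_top _) v hv), map_zero]
  have hKK1 : KK = ⊤ := by
    set W := D.I ⊔ KK.map D.w with hW
    have hWinv : LInv D.a ⊤ W := by
      intro g _ v hv
      obtain ⟨y, hy, _, ⟨ξ, hξ, rfl⟩, rfl⟩ := Submodule.mem_sup.1 hv
      have h1 := w_ad_mod D g ξ
      rw [map_add]
      have h2 : (D.a g).linear y + (D.a g).linear (D.w ξ) =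
          ((D.a g).linear y - (D.w (D.ad g ξ) - (D.a g).linear (D.w ξ))) + D.w (D.ad g ξ) := by
        abel
      rw [h2]
      exact Submodule.add_mem_sup (D.I.sub_mem (D.linv_I (H := ⊤) g (Subgroup.mem_top _) _ hy) h1)
        ⟨_, hKKad g ξ hξ, rfl⟩
    have hWtop : W = ⊤ := by
      by_contra hne
      refine e3 (Helper14.K4.alpha D.linv_I hWinv LInv.top le_sup_left le_top hdim ?_ hne)
      intro h1
      have h2 : KK ≤ kk D := by
        intro ξ hξ
        rw [mem_kk, ← h1]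
        exact Submodule.mem_sup_right ⟨ξ, hξ, rfl⟩
      have h3 := Submodule.finrank_mono h2
      omega
    rw [eq_top_iff]
    intro ξ _
    have h1 : D.w ξ ∈ W := by rw [hWtop]; exact Submodule.mem_top
    obtain ⟨y, hy, _, ⟨η, hη, rfl⟩, hyη⟩ := Submodule.mem_sup.1 h1
    have h2 : ξ - η ∈ kk D := by
      rw [mem_kk, map_sub, ← hyη, add_sub_cancel_right]
      exact hy
    rw [hspan] at h2
    obtain ⟨c, hc⟩ := Submodule.mem_span_singleton.1 h2
    have h3 : ξ = c • ζ + η := by rw [hc, sub_add_cancel]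
    rw [h3]
    refine KK.add_mem (KK.smul_mem c ?_) hη
    rw [memKK]
    intro v _
    rw [h, LinearMap.zero_apply]
  have hXI : ∀ ξ, ∀ v ∈ D.I, D.X ξ v = 0 := by
    intro ξ
    have h1 : ξ ∈ KK := by rw [hKK1]; exact Submodule.mem_top
    exact (memKK ξ).1 h1
  -- the field of a vector modulo `I`
  obtain ⟨s, hs⟩ := (D.I.mkQ ∘ₗ D.w).exists_rightInverse_of_surjective (surj_w hH)
  have hs1 : ∀ v, v - D.w (s (D.I.mkQ v)) ∈ D.I := by
    intro v
    have h1 := LinearMap.congr_fun hs (D.I.mkQ v)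
    rw [LinearMap.comp_apply, LinearMap.comp_apply, LinearMap.id_apply] at h1
    rw [← Submodule.Quotient.mk_eq_zero, ← Submodule.mkQ_apply, map_sub, h1, sub_self]
  have hXkk : ∀ ξ ∈ kk D, D.X ξ = 0 := by
    intro ξ hξ
    rw [hspan] at hξ
    obtain ⟨c, rfl⟩ := Submodule.mem_span_singleton.1 hξ
    rw [map_smul, h, smul_zero]
  have hX2 : ∀ ξ η : E, D.w ξ - D.w η ∈ D.I → D.X ξ = D.X η := by
    intro ξ η h1
    have h2 := hXkk (ξ - η) (by rwa [mem_kk, map_sub])
    rwa [map_sub, sub_eq_zero] at h2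
  -- a functional which is `0` at `v₀` and `1` at `i`
  obtain ⟨lam, hlam, hlami⟩ : ∃ lam : V →ₗ[ℝ] ℝ, lam v₀ = 0 ∧ lam i = 1 := by
    obtain ⟨f, hf, hf0⟩ := Submodule.exists_le_ker_of_notMem hiv
    have h1 : f v₀ = 0 := hf0 (Submodule.mem_span_singleton_self _)
    refine ⟨(f i)⁻¹ • f, ?_, ?_⟩
    · rw [LinearMap.smul_apply, h1, smul_zero]
    · rw [LinearMap.smul_apply, smul_eq_mul, inv_mul_cancel₀ hf]
  let B : (⊤ : Submodule ℝ V) →ₗ[ℝ] (⊤ : Submodule ℝ V) →ₗ[ℝ] ℝ :=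
    ((D.X ∘ₗ s ∘ₗ D.I.mkQ).compr₂ lam).compl₁₂ (⊤ : Submodule ℝ V).subtype
      (⊤ : Submodule ℝ V).subtype
  have hB : ∀ x y, B x y = lam (D.X (s (D.I.mkQ (x : V))) (y : V)) := fun x y => rfl
  have hBsymm : ∀ x y, B x y = B y x := by
    intro x y
    rw [hB, hB]
    congr 1
    have h1 : D.X (s (D.I.mkQ (x : V))) (y : V) =
        D.X (s (D.I.mkQ (x : V))) (D.w (s (D.I.mkQ (y : V)))) := by
      rw [← sub_eq_zero, ← map_sub]
      exact hXI _ _ (hs1 _)
    have h2 : D.X (s (D.I.mkQ (y : V))) (x : V) =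
        D.X (s (D.I.mkQ (y : V))) (D.w (s (D.I.mkQ (x : V)))) := by
      rw [← sub_eq_zero, ← map_sub]
      exact hXI _ _ (hs1 _)
    rw [h1, h2, D.commw]
  have hBker : ∀ x y : (⊤ : Submodule ℝ V), (x : V) ∈ D.I → B x y = 0 := by
    intro x y hx
    have h1 : D.I.mkQ (x : V) = 0 := by
      rw [Submodule.mkQ_apply, Submodule.Quotient.mk_eq_zero]
      exact hx
    rw [hB, h1, map_zero, map_zero, LinearMap.zero_apply, map_zero]
  by_cases hB0 : B = 0
  · -- then `I` is one-dimensional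
    have h1 : D.I ≤ Submodule.span ℝ {v₀} := by
      refine D.I_le fun ξ v => ?_
      have h2 : D.X ξ = D.X (s (D.I.mkQ (D.w ξ))) := hX2 _ _ (hs1 _)
      have h3 : lam (D.X ξ v) = 0 := by
        have h4 := hB ⟨D.w ξ, Submodule.mem_top⟩ ⟨v, Submodule.mem_top⟩
        rw [hB0, LinearMap.zero_apply, LinearMap.zero_apply] at h4
        rw [h2]
        exact h4.symm
      obtain ⟨a, b, hab⟩ := hIsp _ (D.X_mem_I ξ v)
      rw [hab, map_add, map_smul, hlam, smul_zero, zero_add, map_smul, hlami, smul_eq_mul,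
        mul_one] at h3
      rw [hab, h3, zero_smul, add_zero]
      exact Submodule.smul_mem _ _ (Submodule.mem_span_singleton_self _)
    have h2 := Submodule.finrank_mono h1
    omega
  · refine e3 (Helper14.K4.beta D.linv_I LInv.top le_top hdim B hBsymm hBker hB0 fun g => ?_)
    refine ⟨lam ((D.a g).linear i), fun x y => ?_⟩
    rw [hB, hB]
    change lam (D.X (s (D.I.mkQ ((D.a g).linear (x : V)))) ((D.a g).linear (y : V))) = _
    have h1 : D.X (s (D.I.mkQ ((D.a g).linear (x : V)))) = D.X (D.ad g (s (D.I.mkQ (x : V)))) := by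
      apply hX2
      have h2 := hs1 ((D.a g).linear (x : V))
      have h3 := w_ad_mod D g (s (D.I.mkQ (x : V)))
      have h4 := D.linv_I (H := ⊤) g (Subgroup.mem_top _) _ (hs1 (x : V))
      rw [map_sub] at h4
      have h5 := D.I.sub_mem (D.I.sub_mem h4 h2) h3
      convert h5 using 1
      abel
    rw [h1, D.X_ad]
    obtain ⟨a, b, hab⟩ := hIsp _ (D.X_mem_I (s (D.I.mkQ (x : V))) (y : V))
    rw [hab, map_add, map_add, map_add, map_smul, map_smul, map_smul, map_smul, map_smul,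
      map_smul, hlam, hlami, smul_zero, zero_add]
    have h6 : lam ((D.a g).linear v₀) = 0 := by
      obtain ⟨c, hc⟩ := Submodule.mem_span_singleton.1
        (hlin g (Subgroup.mem_top _) v₀ (Submodule.mem_span_singleton_self _))
      rw [← hc, map_smul, hlam, smul_zero]
    rw [h6, smul_zero, zero_add, smul_eq_mul, smul_eq_mul, mul_one, mul_comm]

theorem good_three_ii (D : LieData V E G) (hV : finrank ℝ V = 4) (hE : finrank ℝ E = 3)
    (hH : D.I ⊔ LinearMap.range D.w = ⊤) : D.Good := by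
  have h1 := finrank_kk hV hE hH
  have h2 := Submodule.finrank_le (kk D)
  have h3 : finrank ℝ D.I ≠ 4 := by
    intro h4
    have h5 : Nontrivial V := by
      apply Module.nontrivial_of_finrank_pos (R := ℝ)
      omega
    exact D.I_ne_top h5 (Submodule.eq_top_of_finrank_eq (by omega))
  have h4 : finrank ℝ D.I = 1 ∨ finrank ℝ D.I = 2 ∨ finrank ℝ D.I = 3 := by omega
  rcases h4 with h | h | h
  · exact case_one hV hE hH h
  · exact case_two hV hE hH h
  · exact case_three hV hE hH h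

end

end Pool.Agent.Helper1.K4
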