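import Pool.Agent.Helper77.K4.Lie
import Pool.Agent.Helper60.KT.SelbergAff

/-!
# Module M1 of theorem K4R: group theory
-/

set_option autoImplicit false

open Set Module
open scoped commutatorElement

namespace Pool.Agent.Helper1.K4

open Pool.Agent.Helper77.K4

theorem dser_map {G G' : Type*} [Group G] [Group G'] (f : G →* G') (K : Subgroup G) (j : ℕ) :
    dser (K.map f) j = (dser K j).map f := by
  induction j with
  | zero => rfl
  | succ j ih =>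
    change ⁅_, _⁆ = _
    rw [ih, ← Subgroup.map_commutator]
    rfl

theorem dser_conj {G : Type*} [Group G] {K : Subgroup G} {g : G}
    (hg : ∀ s ∈ K, g * s * g⁻¹ ∈ K) (j : ℕ) : ∀ s ∈ dser K j, g * s * g⁻¹ ∈ dser K j := by
  intro s hs
  have h1 : K.map (MulAut.conj g).toMonoidHom ≤ K := by
    rintro _ ⟨x, hx, rfl⟩
    exact hg x hx
  have h2 := dser_mono h1 j
  rw [dser_map] at h2
  exact h2 ⟨s, hs, rfl⟩

variable {V : Type*} [NormedAddCommGroup V] [NormedSpace ℝ V] [FiniteDimensional ℝ V]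

theorem m1 (Γ : Subgroup (V ≃ᵃ[ℝ] V)) (hfg : Γ.FG) (H S : Subgroup (V ≃ᵃ[ℝ] V)) (hH : H ≤ Γ)
    (hfi : (H.subgroupOf Γ).FiniteIndex) (hS : S ≤ H) (hnorm : ∀ h ∈ H, ∀ s ∈ S, h * s * h⁻¹ ∈ S)
    (hsol : ∃ k, dser S k = ⊥) (hinf : (S : Set (V ≃ᵃ[ℝ] V)).Infinite) :
    ∃ G A : Subgroup (V ≃ᵃ[ℝ] V), G ≤ Γ ∧ (G.subgroupOf Γ).FiniteIndex ∧
      (∀ γ ∈ G, ∀ k : ℕ, 0 < k → γ ^ k = 1 → γ = 1) ∧ A ≤ G ∧
      (∀ g ∈ G, ∀ s ∈ A, g * s * g⁻¹ ∈ A) ∧ (∀ s ∈ A, ∀ t ∈ A, s * t = t * s) ∧ A ≠ ⊥ := by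
  classical
  obtain ⟨N, hN, hNfi, hNtf⟩ := Pool.Agent.KT3.selberg_aff Γ hfg
  obtain ⟨k₀, hk₀⟩ := hsol
  set S' := S ⊓ N with hS'
  -- `S'` is not trivial
  have hne : S' ≠ ⊥ := by
    intro h
    have h1 : N.relIndex S ≠ 0 := fun h0 =>
      hNfi.index_ne_zero (Subgroup.relIndex_eq_zero_of_le_right (hS.trans hH) h0)
    have h2 : N.subgroupOf S = ⊥ := by
      rw [Subgroup.subgroupOf_eq_bot, disjoint_iff, inf_comm]
      exact h
    rw [Subgroup.relIndex, h2, Subgroup.index_bot] at h1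
    have h3 : Infinite S := hinf.to_subtype
    exact h1 Nat.card_eq_zero_of_infinite
  -- `S'` is normal in `H ⊓ N`
  have hnorm' : ∀ g ∈ H ⊓ N, ∀ s ∈ S', g * s * g⁻¹ ∈ S' := by
    intro g hg s hs
    exact ⟨hnorm g hg.1 s hs.1, N.mul_mem (N.mul_mem hg.2 hs.2) (N.inv_mem hg.2)⟩
  have hex : ∃ k, dser S' k = ⊥ := ⟨k₀, by
    rw [eq_bot_iff, ← hk₀]
    exact dser_mono inf_le_left k₀⟩
  set k := Nat.find hex with hk
  have hk1 : dser S' k = ⊥ := Nat.find_spec hex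
  have hk2 : k ≠ 0 := by
    intro h0
    rw [h0] at hk1
    exact hne hk1
  obtain ⟨j, hj⟩ := Nat.exists_eq_succ_of_ne_zero hk2
  have hj2 : dser S' j ≠ ⊥ := Nat.find_min hex (by rw [← hk, hj]; exact Nat.lt_succ_self j)
  refine ⟨H ⊓ N, dser S' j, inf_le_left.trans hH, ?_, fun γ hγ => hNtf γ hγ.2,
    (dser_le S' j).trans (inf_le_inf_right N hS), fun g hg => dser_conj (hnorm' g hg) j, ?_, hj2⟩
  · have h1 : (H ⊓ N).subgroupOf Γ = H.subgroupOf Γ ⊓ N.subgroupOf Γ := by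
      ext x
      simp [Subgroup.mem_subgroupOf]
    rw [h1]
    infer_instance
  · intro s hs t ht
    have h1 : ⁅s, t⁆ ∈ dser S' (j + 1) := Subgroup.commutator_mem_commutator hs ht
    have h2 : dser S' (j + 1) = ⊥ := by
      rw [← Nat.succ_eq_add_one, ← hj]
      exact hk1
    rw [h2, Subgroup.mem_bot, commutatorElement_eq_one_iff_mul_comm] at h1
    exact h1

end Pool.Agent.Helper1.K4
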